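import Mathlib

set_option autoImplicit false

open Polynomial Complex Set

namespace Pool.Agent.Results.MP_fe2d2a_an.CauchySchwarzPreserved

/-- The family `P_t(X) = prod_k (X^2 - 2 r_k cos(t + a_k) X + r_k^2)`: the zeros
`r_k e^(± i a_k)` are rotated by the angle `t` towards the negative axis. -/
noncomputable def rot {n : ℕ} (r a : Fin n → ℝ) (t : ℝ) : ℝ[X] :=
  ∏ k, (X ^ 2 - C (2 * r k * Real.cos (t + a k)) * X + C (r k ^ 2))

/-- the zero in the upper half plane -/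
noncomputable def om (r a : ℝ) : ℂ := r * cexp (a * I)

noncomputable def AA {n : ℕ} (r a : Fin n → ℝ) (w : ℂ) : ℂ := ∏ k, (w - om (r k) (a k))

lemma om_im {r a : ℝ} (hr : 0 < r) (ha : 0 < a) (ha' : a < Real.pi) : 0 < (om r a).im := by
  unfold om
  rw [Complex.im_ofReal_mul, Complex.exp_ofReal_mul_I_im]
  exact mul_pos hr (Real.sin_pos_of_pos_of_lt_pi ha ha')

lemma norm_exp_neg (t : ℝ) : ‖cexp (-(t : ℂ) * I)‖ = 1 := by
  rw [show (-(t : ℂ) * I) = ((-t : ℝ) : ℂ) * I by push_cast; ring]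
  exact Complex.norm_exp_ofReal_mul_I _

lemma factor_eq (r a t : ℝ) (z : ℂ) :
    z ^ 2 - (2 * r * Real.cos (t + a) : ℝ) * z + ((r ^ 2 : ℝ) : ℂ) =
      (z - cexp ((t : ℂ) * I) * om r a) * (z - cexp (-(t : ℂ) * I) * (starRingEnd ℂ) (om r a)) := by
  have h1 : cexp ((t : ℂ) * I) * om r a = r * cexp (((t + a : ℝ) : ℂ) * I) := by
    unfold om
    push_cast
    rw [add_mul, Complex.exp_add]
    ring
  have h2 : cexp (-(t : ℂ) * I) * (starRingEnd ℂ) (om r a) =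
      r * cexp (-(((t + a : ℝ) : ℂ)) * I) := by
    unfold om
    rw [map_mul, ← Complex.exp_conj, map_mul, Complex.conj_ofReal, Complex.conj_ofReal,
      Complex.conj_I]
    push_cast
    rw [show -((t : ℂ) + a) * I = -(t : ℂ) * I + a * -I by ring, Complex.exp_add]
    ring
  rw [h1, h2]
  have h3 : cexp (((t + a : ℝ) : ℂ) * I) * cexp (-(((t + a : ℝ) : ℂ)) * I) = 1 := by
    rw [← Complex.exp_add, ← Complex.exp_zero]
    congr 1
    ring
  have h4 : cexp (((t + a : ℝ) : ℂ) * I) + cexp (-(((t + a : ℝ) : ℂ)) * I) =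
      2 * (Real.cos (t + a) : ℂ) := by
    rw [Complex.ofReal_cos, Complex.cos]
    ring
  push_cast at h3 h4 ⊢
  linear_combination (r : ℂ) * z * h4 - (r : ℂ) ^ 2 * h3

lemma norm_factor (r a t : ℝ) (z : ℂ) :
    ‖z ^ 2 - (2 * r * Real.cos (t + a) : ℝ) * z + ((r ^ 2 : ℝ) : ℂ)‖ =
      ‖cexp (-(t : ℂ) * I) * z - om r a‖ *
        ‖cexp (-(t : ℂ) * I) * (starRingEnd ℂ) z - om r a‖ := by
  rw [factor_eq, norm_mul]
  have he : cexp (-(t : ℂ) * I) * cexp ((t : ℂ) * I) = 1 := by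
    rw [← Complex.exp_add]; simp
  congr 1
  · have : cexp (-(t : ℂ) * I) * z - om r a =
        cexp (-(t : ℂ) * I) * (z - cexp ((t : ℂ) * I) * om r a) := by
      linear_combination (om r a) * he * (-1) * (-1)
    rw [this, norm_mul, norm_exp_neg, one_mul]
  · have h5 : ‖z - cexp (-(t : ℂ) * I) * (starRingEnd ℂ) (om r a)‖ =
        ‖(starRingEnd ℂ) z - cexp ((t : ℂ) * I) * om r a‖ := by
      rw [← Complex.norm_conj (z - _)]
      congr 1
      rw [map_sub, map_mul, Complex.conj_conj, ← Complex.exp_conj]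
      simp
    have : cexp (-(t : ℂ) * I) * (starRingEnd ℂ) z - om r a =
        cexp (-(t : ℂ) * I) * ((starRingEnd ℂ) z - cexp ((t : ℂ) * I) * om r a) := by
      linear_combination (om r a) * he * (-1) * (-1)
    rw [h5, this, norm_mul, norm_exp_neg, one_mul]

lemma aeval_rot {n : ℕ} (r a : Fin n → ℝ) (t : ℝ) (z : ℂ) :
    aeval z (rot r a t) =
      ∏ k, (z ^ 2 - (2 * r k * Real.cos (t + a k) : ℝ) * z + ((r k ^ 2 : ℝ) : ℂ)) := by
  unfold rot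
  rw [map_prod]
  refine Finset.prod_congr rfl fun k _ => ?_
  simp only [map_add, map_sub, map_mul, map_pow, aeval_X, aeval_C, Complex.coe_algebraMap]
  push_cast
  rfl

lemma norm_eval {n : ℕ} (r a : Fin n → ℝ) (t : ℝ) (z : ℂ) :
    ‖aeval z (rot r a t)‖ = ‖AA r a (cexp (-(t : ℂ) * I) * z)‖ *
      ‖AA r a (cexp (-(t : ℂ) * I) * (starRingEnd ℂ) z)‖ := by
  rw [aeval_rot, norm_prod, AA, AA, norm_prod, norm_prod, ← Finset.prod_mul_distrib]
  exact Finset.prod_congr rfl fun k _ => norm_factor _ _ _ _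

lemma eval_nonneg {n : ℕ} (r a : Fin n → ℝ) (t x : ℝ) : 0 ≤ (rot r a t).eval x := by
  unfold rot
  rw [eval_prod]
  refine Finset.prod_nonneg fun k _ => ?_
  simp only [eval_add, eval_sub, eval_mul, eval_pow, eval_X, eval_C]
  nlinarith [sq_nonneg (x - r k * Real.cos (t + a k)), Real.sin_sq_add_cos_sq (t + a k),
    sq_nonneg (r k * Real.sin (t + a k))]

lemma eval_real {n : ℕ} (r a : Fin n → ℝ) (t x : ℝ) :
    (rot r a t).eval x = ‖AA r a (cexp (-(t : ℂ) * I) * x)‖ ^ 2 := by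
  have h := norm_eval r a t (x : ℂ)
  rw [Complex.conj_ofReal] at h
  rw [sq, ← h]
  have : aeval (x : ℂ) (rot r a t) = (((rot r a t).eval x : ℝ) : ℂ) := by
    rw [← Complex.coe_algebraMap, Polynomial.aeval_algebraMap_apply]
    simp
  rw [this, Complex.norm_real, Real.norm_of_nonneg (eval_nonneg r a t x)]

/-- the product in the Phragmen-Lindelöf argument -/
noncomputable def ff {ι : Type} [Fintype ι] (α : ι → ℂ) (β : ι → ℝ) (ω : ι → ℂ) (w : ℂ) : ℂ :=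
  ∏ i, (α i * w - ω i) / ((β i : ℂ) * w - ω i)

lemma den_ne {β : ℝ} {ω w : ℂ} (hβ : 0 < β) (hω : 0 < ω.im) (hw : w.im ≤ 0) :
    (β : ℂ) * w - ω ≠ 0 := by
  intro h
  have := congrArg Complex.im h
  rw [Complex.sub_im, Complex.im_ofReal_mul, Complex.zero_im] at this
  nlinarith [mul_nonneg hβ.le (neg_nonneg.2 hw)]

lemma factor_bound {α : ℂ} {β : ℝ} {ω : ℂ} (hβ : 0 < β) (hω : 0 < ω.im) {w : ℂ} (hw : w.im ≤ 0) :
    ‖(α * w - ω) / ((β : ℂ) * w - ω)‖ ≤ ‖α‖ / β + (‖α‖ * ‖ω‖ / β + ‖ω‖) / ω.im := by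
  have hd : 0 < ‖(β : ℂ) * w - ω‖ := norm_pos_iff.2 (den_ne hβ hω hw)
  have h1 : ω.im ≤ ‖(β : ℂ) * w - ω‖ := by
    have h := Complex.abs_im_le_norm ((β : ℂ) * w - ω)
    rw [Complex.sub_im, Complex.im_ofReal_mul] at h
    have h2 : -(β * w.im - ω.im) ≤ |β * w.im - ω.im| := neg_le_abs _
    nlinarith [mul_nonneg hβ.le (neg_nonneg.2 hw)]
  have h2 : β * ‖w‖ ≤ ‖(β : ℂ) * w - ω‖ + ‖ω‖ := by
    have : (β : ℂ) * w = ((β : ℂ) * w - ω) + ω := by ring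
    calc β * ‖w‖ = ‖(β : ℂ) * w‖ := by
          rw [norm_mul, Complex.norm_real, Real.norm_of_nonneg hβ.le]
      _ ≤ _ := by
          conv_lhs => rw [this]
          exact norm_add_le _ _
  have h3 : ‖w‖ ≤ (‖(β : ℂ) * w - ω‖ + ‖ω‖) / β := by
    rw [le_div_iff₀ hβ]; linarith
  rw [norm_div, div_le_iff₀ hd]
  have h4 : ‖α * w - ω‖ ≤ ‖α‖ * ‖w‖ + ‖ω‖ := by
    refine (norm_sub_le _ _).trans ?_
    rw [norm_mul]
  refine h4.trans ?_
  have h5 : ‖α‖ * ‖w‖ ≤ ‖α‖ * ((‖(β : ℂ) * w - ω‖ + ‖ω‖) / β) :=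
    mul_le_mul_of_nonneg_left h3 (norm_nonneg _)
  have h6 : (‖α‖ * ‖ω‖ / β + ‖ω‖) ≤ (‖α‖ * ‖ω‖ / β + ‖ω‖) / ω.im * ‖(β : ℂ) * w - ω‖ := by
    rw [div_mul_eq_mul_div, le_div_iff₀ hω]
    exact mul_le_mul_of_nonneg_left h1 (by positivity)
  calc ‖α‖ * ‖w‖ + ‖ω‖ ≤ ‖α‖ * ((‖(β : ℂ) * w - ω‖ + ‖ω‖) / β) + ‖ω‖ := by linarith
    _ = ‖α‖ / β * ‖(β : ℂ) * w - ω‖ + (‖α‖ * ‖ω‖ / β + ‖ω‖) := by ring
    _ ≤ ‖α‖ / β * ‖(β : ℂ) * w - ω‖ +
        (‖α‖ * ‖ω‖ / β + ‖ω‖) / ω.im * ‖(β : ℂ) * w - ω‖ := by linarith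
    _ = _ := by ring

lemma ff_diff {ι : Type} [Fintype ι] (α : ι → ℂ) (β : ι → ℝ) (ω : ι → ℂ) (hβ : ∀ i, 0 < β i)
    (hω : ∀ i, 0 < (ω i).im) {w : ℂ} (hw : w.im ≤ 0) : DifferentiableAt ℂ (ff α β ω) w := by
  unfold ff
  refine DifferentiableAt.fun_finsetProd fun i _ => ?_
  refine DifferentiableAt.div (by fun_prop) (by fun_prop) (den_ne (hβ i) (hω i) hw)

lemma ff_bound {ι : Type} [Fintype ι] (α : ι → ℂ) (β : ι → ℝ) (ω : ι → ℂ) (hβ : ∀ i, 0 < β i)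
    (hω : ∀ i, 0 < (ω i).im) : ∃ M : ℝ, ∀ w : ℂ, w.im ≤ 0 → ‖ff α β ω w‖ ≤ M := by
  refine ⟨∏ i, (‖α i‖ / β i + (‖α i‖ * ‖ω i‖ / β i + ‖ω i‖) / (ω i).im), fun w hw => ?_⟩
  unfold ff
  rw [norm_prod]
  exact Finset.prod_le_prod (fun i _ => norm_nonneg _)
    fun i _ => factor_bound (hβ i) (hω i) hw

lemma closure_Q {w : ℂ} (hw : w ∈ closure (Ioi (0 : ℝ) ×ℂ Iio (0 : ℝ))) : w.im ≤ 0 := by
  rw [Complex.closure_reProdIm] at hw
  have := hw.2
  simpa using this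

lemma ff_dcc {ι : Type} [Fintype ι] (α : ι → ℂ) (β : ι → ℝ) (ω : ι → ℂ) (hβ : ∀ i, 0 < β i)
    (hω : ∀ i, 0 < (ω i).im) : DiffContOnCl ℂ (ff α β ω) (Ioi (0 : ℝ) ×ℂ Iio (0 : ℝ)) := by
  refine DifferentiableOn.diffContOnCl fun w hw => ?_
  exact (ff_diff α β ω hβ hω (closure_Q hw)).differentiableWithinAt

lemma PL {ι : Type} [Fintype ι] (α : ι → ℂ) (β : ι → ℝ) (ω : ι → ℂ) (hβ : ∀ i, 0 < β i)
    (hω : ∀ i, 0 < (ω i).im) (h1 : ∀ x : ℝ, 0 ≤ x → ‖ff α β ω x‖ ≤ 1)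
    (h2 : ∀ x : ℝ, x ≤ 0 → ‖ff α β ω (x * I)‖ ≤ 1) {w : ℂ} (hre : 0 ≤ w.re) (him : w.im ≤ 0) :
    ‖ff α β ω w‖ ≤ 1 := by
  refine PhragmenLindelof.quadrant_IV (ff_dcc α β ω hβ hω) ?_ h1 h2 hre him
  obtain ⟨M, hM⟩ := ff_bound α β ω hβ hω
  refine ⟨1, by norm_num, 0, ?_⟩
  simp only [zero_mul, Real.exp_zero]
  rw [Asymptotics.isBigO_iff]
  refine ⟨M, ?_⟩
  rw [Filter.eventually_inf_principal]
  refine Filter.Eventually.of_forall fun z hz => ?_
  have : z.im ≤ 0 := le_of_lt hz.2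
  simpa using hM z this

/-- strict form -/
lemma PL_strict {ι : Type} [Fintype ι] (α : ι → ℂ) (β : ι → ℝ) (ω : ι → ℂ) (hβ : ∀ i, 0 < β i)
    (hω : ∀ i, 0 < (ω i).im) (h1 : ∀ x : ℝ, 0 ≤ x → ‖ff α β ω x‖ ≤ 1)
    (h2 : ∀ x : ℝ, x ≤ 0 → ‖ff α β ω (x * I)‖ ≤ 1) (h3 : ‖ff α β ω (((-1 : ℝ) : ℂ) * I)‖ < 1)
    {w : ℂ} (hre : 0 < w.re) (him : w.im < 0) :
    ‖ff α β ω w‖ < 1 := by
  by_contra hcon
  have hall : ∀ z ∈ Ioi (0 : ℝ) ×ℂ Iio (0 : ℝ), ‖ff α β ω z‖ ≤ 1 := fun z hz =>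
    PL α β ω hβ hω h1 h2 (le_of_lt hz.1) (le_of_lt hz.2)
  have hw1 : ‖ff α β ω w‖ = 1 := le_antisymm (hall w ⟨hre, him⟩) (not_lt.1 hcon)
  have hmax : IsMaxOn (norm ∘ ff α β ω) (Ioi (0 : ℝ) ×ℂ Iio (0 : ℝ)) w := by
    intro z hz
    simp only [Function.comp_apply, mem_ofPred_eq]
    rw [hw1]
    exact hall z hz
  have hpre : IsPreconnected (Ioi (0 : ℝ) ×ℂ Iio (0 : ℝ)) :=
    ((convex_halfSpace_re_gt 0).inter (convex_halfSpace_im_lt 0)).isPreconnected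
  have hopen : IsOpen (Ioi (0 : ℝ) ×ℂ Iio (0 : ℝ)) := isOpen_Ioi.reProdIm isOpen_Iio
  have heq := Complex.norm_eqOn_closure_of_isPreconnected_of_isMaxOn hpre hopen
    (ff_dcc α β ω hβ hω) ⟨hre, him⟩ hmax
  have hmem : (((-1 : ℝ) : ℂ) * I) ∈ closure (Ioi (0 : ℝ) ×ℂ Iio (0 : ℝ)) := by
    rw [Complex.closure_reProdIm]
    constructor
    · simp
    · simp
  have h4 := heq hmem
  simp only [Function.comp_apply, Function.const_apply] at h4
  rw [h4, hw1] at h3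
  exact lt_irrefl _ h3

lemma cs_ff {n : ℕ} (r a : Fin n → ℝ) (u : ℂ) (l : ℝ) (t x : ℝ) :
    ‖ff (ι := Fin n ⊕ Fin n) (Sum.elim (fun _ => u) (fun _ => (starRingEnd ℂ) u))
        (Sum.elim (fun _ => l) (fun _ => l⁻¹))
        (Sum.elim (fun k => om (r k) (a k)) (fun k => om (r k) (a k)))
        (cexp (-(t : ℂ) * I) * x)‖ ^ 2 =
      ‖aeval (u * x) (rot r a t)‖ ^ 2 /
        ((rot r a t).eval (l * x) * (rot r a t).eval (l⁻¹ * x)) := by
  unfold ff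
  rw [Fintype.prod_sum_type]
  simp only [Sum.elim_inl, Sum.elim_inr]
  rw [Finset.prod_div_distrib, Finset.prod_div_distrib, eval_real, eval_real, norm_eval]
  simp only [norm_mul, norm_div]
  rw [map_mul, Complex.conj_ofReal]
  have e1 : cexp (-(t : ℂ) * I) * (u * x) = u * (cexp (-(t : ℂ) * I) * x) := by ring
  have e2 : cexp (-(t : ℂ) * I) * ((starRingEnd ℂ) u * x) =
      (starRingEnd ℂ) u * (cexp (-(t : ℂ) * I) * x) := by ring
  have e3 : cexp (-(t : ℂ) * I) * ((l * x : ℝ) : ℂ) = l * (cexp (-(t : ℂ) * I) * x) := by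
    push_cast; ring
  have e4 : cexp (-(t : ℂ) * I) * ((l⁻¹ * x : ℝ) : ℂ) =
      ((l⁻¹ : ℝ) : ℂ) * (cexp (-(t : ℂ) * I) * x) := by push_cast; ring
  rw [e1, e2, e3, e4]
  unfold AA
  rw [div_mul_div_comm, div_pow, mul_pow, mul_pow]

/-- polynomials with nonnegative coefficients: the triangle inequality. -/
lemma growth_of_nonneg (P : ℝ[X]) (h : ∀ j, 0 ≤ P.coeff j) (z : ℂ) :
    ‖aeval z P‖ ≤ P.eval ‖z‖ := by
  rw [Polynomial.aeval_eq_sum_range, Polynomial.eval_eq_sum_range]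
  refine (norm_sum_le _ _).trans (Finset.sum_le_sum fun i _ => ?_)
  rw [norm_smul, norm_pow, Real.norm_of_nonneg (h i)]

lemma conv_of_nonneg (P : ℝ[X]) (h : ∀ j, 0 ≤ P.coeff j) {x y : ℝ} (hx : 0 < x) (hy : 0 < y) :
    P.eval (Real.sqrt (x * y)) ^ 2 ≤ P.eval x * P.eval y := by
  simp only [Polynomial.eval_eq_sum_range]
  refine Finset.sum_sq_le_sum_mul_sum_of_sq_le_mul _
    (fun i _ => mul_nonneg (h i) (by positivity)) (fun i _ => mul_nonneg (h i) (by positivity))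
    fun i _ => le_of_eq ?_
  rw [mul_pow, ← pow_mul, mul_comm i 2, pow_mul, Real.sq_sqrt (by positivity), mul_pow]
  ring

lemma nonneg_mul {p q : ℝ[X]} (hp : ∀ j, 0 ≤ p.coeff j) (hq : ∀ j, 0 ≤ q.coeff j) (j : ℕ) :
    0 ≤ (p * q).coeff j := by
  rw [coeff_mul]
  exact Finset.sum_nonneg fun i _ => mul_nonneg (hp _) (hq _)

lemma nonneg_half {n : ℕ} (r a : Fin n → ℝ) (hr : ∀ k, 0 < r k)
    (ha : ∀ k, 0 < a k ∧ a k < Real.pi) (j : ℕ) : 0 ≤ (rot r a (Real.pi / 2)).coeff j := by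
  unfold rot
  have key : ∀ s : Finset (Fin n), ∀ j, 0 ≤ (∏ k ∈ s,
      (X ^ 2 - C (2 * r k * Real.cos (Real.pi / 2 + a k)) * X + C (r k ^ 2))).coeff j := by
    intro s
    induction s using Finset.induction_on with
    | empty =>
      intro j
      rw [Finset.prod_empty, coeff_one]
      split_ifs <;> norm_num
    | insert k s hk ih =>
      rw [Finset.prod_insert hk]
      refine nonneg_mul (fun i => ?_) ih
      have hs : 0 < Real.sin (a k) := Real.sin_pos_of_pos_of_lt_pi (ha k).1 (ha k).2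
      rw [add_comm (Real.pi / 2), Real.cos_add_pi_div_two]
      have e : (X ^ 2 - C (2 * r k * -Real.sin (a k)) * X + C (r k ^ 2) : ℝ[X]) =
          X ^ 2 + C (2 * r k * Real.sin (a k)) * X + C (r k ^ 2) := by
        rw [mul_neg, C_neg]; ring
      rw [e, coeff_add, coeff_add, coeff_X_pow, coeff_C_mul, coeff_X, coeff_C]
      have hb : 0 < 2 * r k * Real.sin (a k) := by have := hr k; positivity
      have hc : 0 < r k ^ 2 := by have := hr k; positivity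
      split_ifs <;> simp <;> positivity
  exact key Finset.univ j

lemma strict_factor {b c : ℝ} (hb : 0 < b) (hc : 0 < c) {z : ℂ} (hz : ¬ (z.im = 0 ∧ 0 ≤ z.re)) :
    ‖z ^ 2 + b * z + c‖ < ‖z‖ ^ 2 + b * ‖z‖ + c := by
  have h1 : ‖(b : ℂ) * z + c‖ < b * ‖z‖ + c := by
    have hle : ‖(b : ℂ) * z + c‖ ≤ b * ‖z‖ + c := by
      refine (norm_add_le _ _).trans (le_of_eq ?_)
      rw [norm_mul, Complex.norm_real, Complex.norm_real, Real.norm_of_nonneg hb.le,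
        Real.norm_of_nonneg hc.le]
    refine lt_of_le_of_ne hle fun heq => hz ?_
    have hsq : ‖(b : ℂ) * z + c‖ ^ 2 = (b * ‖z‖ + c) ^ 2 := by rw [heq]
    have h2 : ‖(b : ℂ) * z + c‖ ^ 2 = (b * z.re + c) ^ 2 + (b * z.im) ^ 2 := by
      rw [Complex.sq_norm, Complex.normSq_apply]
      simp
      ring
    have h3 : ‖z‖ ^ 2 = z.re ^ 2 + z.im ^ 2 := by
      rw [Complex.sq_norm, Complex.normSq_apply]
      ring
    have h4 : ‖z‖ = z.re := by
      have h5 : (b * z.re + c) ^ 2 + (b * z.im) ^ 2 = (b * ‖z‖ + c) ^ 2 := by rw [← h2, hsq]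
      have h6 : 2 * b * c * z.re = 2 * b * c * ‖z‖ := by
        have : b ^ 2 * ‖z‖ ^ 2 = b ^ 2 * (z.re ^ 2 + z.im ^ 2) := by rw [h3]
        nlinarith
      have h7 : (2 * b * c) ≠ 0 := by positivity
      exact (mul_left_cancel₀ h7 h6).symm
    constructor
    · rw [h4] at h3
      have : z.im ^ 2 = 0 := by linarith
      exact pow_eq_zero_iff (two_ne_zero) |>.1 this
    · rw [← h4]; exact norm_nonneg _
  calc ‖z ^ 2 + b * z + c‖ = ‖z ^ 2 + (b * z + c)‖ := by rw [add_assoc]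
    _ ≤ ‖z ^ 2‖ + ‖(b : ℂ) * z + c‖ := norm_add_le _ _
    _ < ‖z‖ ^ 2 + (b * ‖z‖ + c) := by rw [norm_pow]; linarith
    _ = _ := by ring

lemma strict_half {n : ℕ} (hn : 0 < n) (r a : Fin n → ℝ) (hr : ∀ k, 0 < r k)
    (ha : ∀ k, 0 < a k ∧ a k < Real.pi) {z : ℂ} (hz : ¬ (z.im = 0 ∧ 0 ≤ z.re)) :
    ‖aeval z (rot r a (Real.pi / 2))‖ < (rot r a (Real.pi / 2)).eval ‖z‖ := by
  have hs : ∀ k, 0 < Real.sin (a k) := fun k => Real.sin_pos_of_pos_of_lt_pi (ha k).1 (ha k).2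
  have hb : ∀ k, 0 < 2 * r k * Real.sin (a k) := fun k => by
    have := hr k; have := hs k; positivity
  have hc : ∀ k, 0 < r k ^ 2 := fun k => by have := hr k; positivity
  have hcos : ∀ k, Real.cos (Real.pi / 2 + a k) = -Real.sin (a k) := fun k => by
    rw [add_comm (Real.pi / 2), Real.cos_add_pi_div_two]
  have hR : (rot r a (Real.pi / 2)).eval ‖z‖ =
      ∏ k, (‖z‖ ^ 2 + 2 * r k * Real.sin (a k) * ‖z‖ + r k ^ 2) := by
    unfold rot
    rw [eval_prod]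
    refine Finset.prod_congr rfl fun k _ => ?_
    simp only [eval_add, eval_sub, eval_mul, eval_pow, eval_X, eval_C, hcos k]
    ring
  have hL : ‖aeval z (rot r a (Real.pi / 2))‖ =
      ∏ k, ‖z ^ 2 + (2 * r k * Real.sin (a k) : ℝ) * z + ((r k ^ 2 : ℝ) : ℂ)‖ := by
    rw [aeval_rot, norm_prod]
    refine Finset.prod_congr rfl fun k _ => ?_
    rw [hcos k]
    congr 1
    push_cast
    ring
  rw [hL, hR]
  have hlt : ∀ k, ‖z ^ 2 + (2 * r k * Real.sin (a k) : ℝ) * z + ((r k ^ 2 : ℝ) : ℂ)‖ <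
      ‖z‖ ^ 2 + 2 * r k * Real.sin (a k) * ‖z‖ + r k ^ 2 := fun k =>
    strict_factor (hb k) (hc k) hz
  by_cases h0 : ∃ k, ‖z ^ 2 + (2 * r k * Real.sin (a k) : ℝ) * z + ((r k ^ 2 : ℝ) : ℂ)‖ = 0
  · obtain ⟨k, hk⟩ := h0
    rw [Finset.prod_eq_zero (Finset.mem_univ k) hk]
    refine Finset.prod_pos fun k _ => ?_
    have := hb k; have := hc k; positivity
  · push Not at h0
    have : Nonempty (Fin n) := ⟨⟨0, hn⟩⟩
    refine Finset.prod_lt_prod_of_nonempty (fun k _ => ?_) (fun k _ => hlt k)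
      Finset.univ_nonempty
    exact lt_of_le_of_ne (norm_nonneg _) (Ne.symm (h0 k))

lemma eval_pos {n : ℕ} (r a : Fin n → ℝ) (hr : ∀ k, 0 < r k)
    (ha : ∀ k, 0 < a k ∧ a k < Real.pi) {t x : ℝ} (ht : 0 ≤ t) (ht' : t ≤ Real.pi) (hx : 0 ≤ x) :
    0 < (rot r a t).eval x := by
  rw [eval_real]
  have : AA r a (cexp (-(t : ℂ) * I) * x) ≠ 0 := by
    unfold AA
    rw [Finset.prod_ne_zero_iff]
    intro k _
    have h := den_ne (β := 1) (ω := om (r k) (a k)) (w := cexp (-(t : ℂ) * I) * x) one_pos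
      (om_im (hr k) (ha k).1 (ha k).2) ?_
    · simpa using h
    · rw [mul_comm, Complex.im_ofReal_mul, show (-(t : ℂ) * I) = ((-t : ℝ) : ℂ) * I by
        push_cast; ring, Complex.exp_ofReal_mul_I_im, Real.sin_neg]
      have := Real.sin_nonneg_of_nonneg_of_le_pi ht ht'
      nlinarith [mul_nonneg hx this]
  positivity

lemma exp_neg_half (x : ℝ) :
    cexp (-((Real.pi / 2 : ℝ) : ℂ) * I) * ((-x : ℝ) : ℂ) = (x : ℂ) * I := by
  rw [show (-((Real.pi / 2 : ℝ) : ℂ) * I) = -((Real.pi : ℂ) / 2 * I) by push_cast; ring,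
    Complex.exp_neg, Complex.exp_pi_div_two_mul_I, Complex.inv_I]
  push_cast
  ring

/-- the three coordinates of `exp(-it) x`. -/
lemma re_im {t x : ℝ} : (cexp (-(t : ℂ) * I) * x).re = Real.cos t * x ∧
    (cexp (-(t : ℂ) * I) * x).im = -(Real.sin t * x) := by
  have h : (-(t : ℂ) * I) = ((-t : ℝ) : ℂ) * I := by push_cast; ring
  constructor
  · rw [Complex.re_mul_ofReal, h, Complex.exp_ofReal_mul_I_re, Real.cos_neg]
  · rw [Complex.im_mul_ofReal, h, Complex.exp_ofReal_mul_I_im, Real.sin_neg]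
    ring

lemma cs_of_nonneg (P : ℝ[X]) (h : ∀ j, 0 ≤ P.coeff j) (z w : ℂ) :
    ‖aeval (z * w) P‖ ^ 2 ≤ P.eval (‖z‖ ^ 2) * P.eval (‖w‖ ^ 2) := by
  have h1 : ‖aeval (z * w) P‖ ≤ P.eval (‖z‖ * ‖w‖) := by
    have := growth_of_nonneg P h (z * w)
    rwa [norm_mul] at this
  have h2 : P.eval (‖z‖ * ‖w‖) ^ 2 ≤ P.eval (‖z‖ ^ 2) * P.eval (‖w‖ ^ 2) := by
    simp only [Polynomial.eval_eq_sum_range]
    refine Finset.sum_sq_le_sum_mul_sum_of_sq_le_mul _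
      (fun i _ => mul_nonneg (h i) (by positivity)) (fun i _ => mul_nonneg (h i) (by positivity))
      fun i _ => le_of_eq ?_
    rw [mul_pow, mul_pow]
    ring
  exact (pow_le_pow_left₀ (norm_nonneg _) h1 2).trans h2

lemma strict_half_l {n : ℕ} (hn : 0 < n) (r a : Fin n → ℝ) (hr : ∀ k, 0 < r k)
    (ha : ∀ k, 0 < a k ∧ a k < Real.pi) {x l : ℝ} (hx : 0 < x) (hl : 0 < l) (hl1 : l ≠ 1) :
    (rot r a (Real.pi / 2)).eval x ^ 2 <
      (rot r a (Real.pi / 2)).eval (l * x) * (rot r a (Real.pi / 2)).eval (l⁻¹ * x) := by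
  have hs : ∀ k, 0 < Real.sin (a k) := fun k => Real.sin_pos_of_pos_of_lt_pi (ha k).1 (ha k).2
  have hb : ∀ k, 0 < 2 * r k * Real.sin (a k) := fun k => by
    have := hr k; have := hs k; positivity
  have hcos : ∀ k, Real.cos (Real.pi / 2 + a k) = -Real.sin (a k) := fun k => by
    rw [add_comm (Real.pi / 2), Real.cos_add_pi_div_two]
  have hR : ∀ y : ℝ, (rot r a (Real.pi / 2)).eval y =
      ∏ k, (y ^ 2 + 2 * r k * Real.sin (a k) * y + r k ^ 2) := by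
    intro y
    unfold rot
    rw [eval_prod]
    refine Finset.prod_congr rfl fun k _ => ?_
    simp only [eval_add, eval_sub, eval_mul, eval_pow, eval_X, eval_C, hcos k]
    ring
  rw [hR, hR, hR, ← Finset.prod_pow, ← Finset.prod_mul_distrib]
  have : Nonempty (Fin n) := ⟨⟨0, hn⟩⟩
  refine Finset.prod_lt_prod_of_nonempty (fun k _ => ?_) (fun k _ => ?_) Finset.univ_nonempty
  · have := hb k; have := hr k; positivity
  · set b := 2 * r k * Real.sin (a k) with hbdef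
    have hb' := hb k
    have hc : 0 < r k ^ 2 := by have := hr k; positivity
    set c := r k ^ 2 with hcdef
    have hll : l * l⁻¹ = 1 := mul_inv_cancel₀ hl.ne'
    have hd : 0 < l + l⁻¹ - 2 := by
      have h1 : 0 < (l - 1) ^ 2 := by
        have : l - 1 ≠ 0 := sub_ne_zero.2 hl1
        positivity
      have h2 : l + l⁻¹ - 2 = (l - 1) ^ 2 * l⁻¹ := by
        field_simp
        ring
      rw [h2]
      positivity
    have hd2 : 0 ≤ l ^ 2 + l⁻¹ ^ 2 - 2 := by nlinarith [sq_nonneg (l - l⁻¹)]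
    have key : ((l * x) ^ 2 + b * (l * x) + c) * ((l⁻¹ * x) ^ 2 + b * (l⁻¹ * x) + c) -
        (x ^ 2 + b * x + c) ^ 2 = (b * x ^ 3 + b * c * x) * (l + l⁻¹ - 2) +
          c * x ^ 2 * (l ^ 2 + l⁻¹ ^ 2 - 2) := by
      have e : l⁻¹ = l⁻¹ := rfl
      linear_combination (x ^ 4 * (l * l⁻¹ + 1) + b * x ^ 3 * (l + l⁻¹) + b ^ 2 * x ^ 2) * hll
    have : 0 < (b * x ^ 3 + b * c * x) * (l + l⁻¹ - 2) +
          c * x ^ 2 * (l ^ 2 + l⁻¹ ^ 2 - 2) := by
      have : 0 < (b * x ^ 3 + b * c * x) * (l + l⁻¹ - 2) := by positivity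
      have : 0 ≤ c * x ^ 2 * (l ^ 2 + l⁻¹ ^ 2 - 2) := by positivity
      linarith
    linarith

/-- strict inequality at the quarter turn. -/
lemma strict_half_cs {n : ℕ} (hn : 0 < n) (r a : Fin n → ℝ) (hr : ∀ k, 0 < r k)
    (ha : ∀ k, 0 < a k ∧ a k < Real.pi) {u : ℂ} (hu : ‖u‖ = 1) {l x : ℝ} (hl : 0 < l)
    (hx : 0 < x) (hne : ¬ (u = 1 ∧ l = 1)) :
    ‖aeval (u * x) (rot r a (Real.pi / 2))‖ ^ 2 <
      (rot r a (Real.pi / 2)).eval (l * x) * (rot r a (Real.pi / 2)).eval (l⁻¹ * x) := by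
  have hnu : ‖u * (x : ℂ)‖ = x := by
    rw [norm_mul, hu, one_mul, Complex.norm_real, Real.norm_of_nonneg hx.le]
  have hnn := nonneg_half r a hr ha
  by_cases hu1 : u = 1
  · have hl1 : l ≠ 1 := fun h => hne ⟨hu1, h⟩
    have h1 : ‖aeval (u * x) (rot r a (Real.pi / 2))‖ ^ 2 ≤
        (rot r a (Real.pi / 2)).eval x ^ 2 := by
      have := growth_of_nonneg _ hnn (u * x)
      rw [hnu] at this
      exact pow_le_pow_left₀ (norm_nonneg _) this 2
    exact h1.trans_lt (strict_half_l hn r a hr ha hx hl hl1)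
  · have hz : ¬ ((u * (x : ℂ)).im = 0 ∧ 0 ≤ (u * (x : ℂ)).re) := by
      rintro ⟨h5, h6⟩
      apply hu1
      rw [Complex.im_mul_ofReal] at h5
      rw [Complex.re_mul_ofReal] at h6
      have him : u.im = 0 := by
        rcases mul_eq_zero.1 h5 with h | h
        · exact h
        · exact absurd h hx.ne'
      have hre : 0 ≤ u.re := nonneg_of_mul_nonneg_left h6 hx
      have h7 : (1 : ℝ) = u.re ^ 2 := by
        have : ‖u‖ ^ 2 = u.re ^ 2 + u.im ^ 2 := by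
          rw [Complex.sq_norm, Complex.normSq_apply]; ring
        rw [hu, him] at this
        linarith
      have h8 : u.re = 1 := by nlinarith
      exact Complex.ext (by simpa using h8) (by simpa using him)
    have h1 := strict_half hn r a hr ha hz
    rw [hnu] at h1
    have h2 : ‖aeval (u * x) (rot r a (Real.pi / 2))‖ ^ 2 <
        (rot r a (Real.pi / 2)).eval x ^ 2 :=
      pow_lt_pow_left₀ h1 (norm_nonneg _) (by norm_num)
    have h3 : (rot r a (Real.pi / 2)).eval x ^ 2 ≤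
        (rot r a (Real.pi / 2)).eval (l * x) * (rot r a (Real.pi / 2)).eval (l⁻¹ * x) := by
      rcases eq_or_ne l 1 with h | h
      · rw [h, inv_one, one_mul, sq]
      · exact (strict_half_l hn r a hr ha hx hl h).le
    exact h2.trans_le h3

lemma cs_t {n : ℕ} (r a : Fin n → ℝ) (hr : ∀ k, 0 < r k)
    (ha : ∀ k, 0 < a k ∧ a k < Real.pi)
    (h0 : ∀ z w : ℂ, z ≠ 0 → w ≠ 0 →
      ‖aeval (z * w) (rot r a 0)‖ ^ 2 ≤ (rot r a 0).eval (‖z‖ ^ 2) * (rot r a 0).eval (‖w‖ ^ 2))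
    {t : ℝ} (ht : 0 ≤ t) (ht' : t ≤ Real.pi / 2) (z w : ℂ) (hz0 : z ≠ 0) (hw0 : w ≠ 0) :
    ‖aeval (z * w) (rot r a t)‖ ^ 2 ≤ (rot r a t).eval (‖z‖ ^ 2) * (rot r a t).eval (‖w‖ ^ 2) ∧
      (0 < t → 0 < n → w ≠ (starRingEnd ℂ) z →
        ‖aeval (z * w) (rot r a t)‖ ^ 2 <
          (rot r a t).eval (‖z‖ ^ 2) * (rot r a t).eval (‖w‖ ^ 2)) := by
  have hz : 0 < ‖z‖ := norm_pos_iff.2 hz0
  have hw : 0 < ‖w‖ := norm_pos_iff.2 hw0
  set v : ℝ := ‖z‖ * ‖w‖ with hv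
  have hvpos : 0 < v := mul_pos hz hw
  set l : ℝ := ‖z‖ / ‖w‖ with hl
  have hlpos : 0 < l := div_pos hz hw
  have hlv : l * v = ‖z‖ ^ 2 := by rw [hl, hv]; field_simp
  have hlv' : l⁻¹ * v = ‖w‖ ^ 2 := by rw [hl, hv]; field_simp
  obtain ⟨u, hu, hzu⟩ : ∃ u : ℂ, ‖u‖ = 1 ∧ z * w = u * (v : ℝ) := by
    refine ⟨z * w / (v : ℝ), ?_, ?_⟩
    · rw [norm_div, Complex.norm_real, norm_mul, Real.norm_of_nonneg hvpos.le, ← hv,
        div_self hvpos.ne']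
    · rw [div_mul_cancel₀]
      exact_mod_cast hvpos.ne'
  set F := ff (ι := Fin n ⊕ Fin n) (Sum.elim (fun _ => u) (fun _ => (starRingEnd ℂ) u))
    (Sum.elim (fun _ => l) (fun _ => l⁻¹))
    (Sum.elim (fun k => om (r k) (a k)) (fun k => om (r k) (a k))) with hF
  have hω : ∀ i : Fin n ⊕ Fin n,
      0 < ((Sum.elim (fun k => om (r k) (a k)) (fun k => om (r k) (a k)) :
        Fin n ⊕ Fin n → ℂ) i).im := by
    rintro (k | k) <;> exact om_im (hr k) (ha k).1 (ha k).2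
  have hβ : ∀ i : Fin n ⊕ Fin n,
      0 < ((Sum.elim (fun _ => l) (fun _ => l⁻¹) : Fin n ⊕ Fin n → ℝ) i) := by
    rintro (k | k)
    · exact hlpos
    · exact inv_pos.2 hlpos
  have hpi : Real.pi / 2 ≤ Real.pi := by linarith [Real.pi_pos]
  have hpi0 : (0 : ℝ) ≤ Real.pi / 2 := by positivity
  -- points `z', w'` with `z' w' = u x`, `|z'|^2 = l x`, `|w'|^2 = x / l`
  have hpts : ∀ x : ℝ, 0 < x → ∃ z' w' : ℂ, z' ≠ 0 ∧ w' ≠ 0 ∧ z' * w' = u * x ∧
      ‖z'‖ ^ 2 = l * x ∧ ‖w'‖ ^ 2 = l⁻¹ * x := by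
    intro x hx
    have h1 : 0 < l * x := mul_pos hlpos hx
    have h2 : 0 < l⁻¹ * x := mul_pos (inv_pos.2 hlpos) hx
    have h3 : Real.sqrt (l * x) * Real.sqrt (l⁻¹ * x) = x := by
      rw [← Real.sqrt_mul h1.le, show l * x * (l⁻¹ * x) = x ^ 2 by field_simp]
      exact Real.sqrt_sq hx.le
    have hu0 : u ≠ 0 := by
      intro h
      rw [h, norm_zero] at hu
      exact zero_ne_one hu
    refine ⟨u * (Real.sqrt (l * x) : ℝ), (Real.sqrt (l⁻¹ * x) : ℝ), ?_, ?_, ?_, ?_, ?_⟩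
    · exact mul_ne_zero hu0 (by exact_mod_cast (Real.sqrt_pos.2 h1).ne')
    · exact_mod_cast (Real.sqrt_pos.2 h2).ne'
    · rw [mul_assoc, ← Complex.ofReal_mul, h3]
    · rw [norm_mul, hu, one_mul, Complex.norm_real, Real.norm_of_nonneg (Real.sqrt_nonneg _),
        Real.sq_sqrt h1.le]
    · rw [Complex.norm_real, Real.norm_of_nonneg (Real.sqrt_nonneg _), Real.sq_sqrt h2.le]
  have hb : ∀ s : ℝ, 0 ≤ s → s ≤ Real.pi →
      (∀ z w : ℂ, z ≠ 0 → w ≠ 0 → ‖aeval (z * w) (rot r a s)‖ ^ 2 ≤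
        (rot r a s).eval (‖z‖ ^ 2) * (rot r a s).eval (‖w‖ ^ 2)) →
      ∀ x : ℝ, 0 ≤ x → ‖F (cexp (-(s : ℂ) * I) * x)‖ ≤ 1 := by
    intro s hs hs' hyp x hx
    have h := cs_ff r a u l s x
    have hp1 := eval_pos r a hr ha hs hs' (mul_nonneg hlpos.le hx)
    have hp2 := eval_pos r a hr ha hs hs' (mul_nonneg (inv_pos.2 hlpos).le hx)
    have h2 : ‖F (cexp (-(s : ℂ) * I) * x)‖ ^ 2 ≤ 1 := by
      rw [hF, h, div_le_one (mul_pos hp1 hp2)]
      rcases hx.eq_or_lt with h0x | hxpos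
      · rw [← h0x]
        have e : aeval (u * ((0 : ℝ) : ℂ)) (rot r a s) = (((rot r a s).eval 0 : ℝ) : ℂ) := by
          rw [Complex.ofReal_zero, mul_zero, ← Complex.ofReal_zero, ← Complex.coe_algebraMap,
            Polynomial.aeval_algebraMap_apply]
          simp
        rw [e, Complex.norm_real, Real.norm_of_nonneg (eval_nonneg r a s 0), mul_zero, mul_zero,
          sq]
      · obtain ⟨z', w', hz', hw', h3, h4, h5⟩ := hpts x hxpos
        have h6 := hyp z' w' hz' hw'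
        rwa [h3, h4, h5] at h6
    exact (sq_le_one_iff₀ (norm_nonneg _)).1 h2
  have h1 : ∀ x : ℝ, 0 ≤ x → ‖F x‖ ≤ 1 := by
    intro x hx
    have h := hb 0 le_rfl Real.pi_pos.le h0 x hx
    rwa [Complex.ofReal_zero, neg_zero, zero_mul, Complex.exp_zero, one_mul] at h
  have h2 : ∀ x : ℝ, x ≤ 0 → ‖F (x * I)‖ ≤ 1 := by
    intro x hx
    have h := hb (Real.pi / 2) hpi0 hpi
      (fun z w _ _ => cs_of_nonneg _ (nonneg_half r a hr ha) z w) (-x) (by linarith)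
    rwa [exp_neg_half] at h
  have hp1 : 0 < (rot r a t).eval (‖z‖ ^ 2) := eval_pos r a hr ha ht (by linarith) (by positivity)
  have hp2 : 0 < (rot r a t).eval (‖w‖ ^ 2) := eval_pos r a hr ha ht (by linarith) (by positivity)
  have hval : ‖F (cexp (-(t : ℂ) * I) * (v : ℝ))‖ ^ 2 =
      ‖aeval (z * w) (rot r a t)‖ ^ 2 /
        ((rot r a t).eval (‖z‖ ^ 2) * (rot r a t).eval (‖w‖ ^ 2)) := by
    rw [hF, cs_ff r a u l t v, ← hzu, hlv, hlv']
  obtain ⟨hre, him⟩ := re_im (t := t) (x := v)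
  have hs : 0 ≤ Real.sin t := Real.sin_nonneg_of_nonneg_of_le_pi ht (by linarith)
  have hc : 0 ≤ Real.cos t := Real.cos_nonneg_of_mem_Icc ⟨by linarith, ht'⟩
  refine ⟨?_, fun ht0 hn hne => ?_⟩
  · have h := PL _ _ _ hβ hω h1 h2 (w := cexp (-(t : ℂ) * I) * (v : ℝ))
      (by rw [hre]; positivity) (by rw [him]; have := mul_nonneg hs hvpos.le; linarith)
    have h4 := (sq_le_one_iff₀ (norm_nonneg _)).2 h
    rw [← hF, hval, div_le_one (mul_pos hp1 hp2)] at h4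
    exact h4
  · have hne' : ¬ (u = 1 ∧ l = 1) := by
      rintro ⟨hu1, hl1⟩
      apply hne
      have h3 : ‖z‖ = ‖w‖ := by
        rw [hl, div_eq_one_iff_eq hw.ne'] at hl1
        exact hl1
      have h4 : z * w = z * (starRingEnd ℂ) z := by
        rw [hzu, hu1, one_mul, Complex.mul_conj, hv, ← h3, Complex.normSq_eq_norm_sq]
        push_cast
        ring
      exact mul_left_cancel₀ hz0 h4
    rcases ht'.eq_or_lt with hteq | htlt
    · have h5 := strict_half_cs hn r a hr ha hu hlpos hvpos hne'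
      rw [hlv, hlv', ← hzu] at h5
      rw [hteq]
      exact h5
    · have hs' : 0 < Real.sin t := Real.sin_pos_of_pos_of_lt_pi ht0 (by linarith)
      have hc' : 0 < Real.cos t := Real.cos_pos_of_mem_Ioo ⟨by linarith, htlt⟩
      have h3 : ‖F (((-1 : ℝ) : ℂ) * I)‖ < 1 := by
        have h := cs_ff r a u l (Real.pi / 2) (-(-1))
        rw [exp_neg_half] at h
        have hpp1 := eval_pos r a hr ha hpi0 hpi (mul_nonneg hlpos.le (by norm_num : (0 : ℝ) ≤ -(-1)))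
        have hpp2 := eval_pos r a hr ha hpi0 hpi
          (mul_nonneg (inv_pos.2 hlpos).le (by norm_num : (0 : ℝ) ≤ -(-1)))
        have h4 : ‖F (((-1 : ℝ) : ℂ) * I)‖ ^ 2 < 1 := by
          rw [hF, h, div_lt_one (mul_pos hpp1 hpp2)]
          exact strict_half_cs hn r a hr ha hu hlpos (by norm_num) hne'
        exact (sq_lt_one_iff₀ (norm_nonneg _)).1 h4
      have h := PL_strict _ _ _ hβ hω h1 h2 h3
        (w := cexp (-(t : ℂ) * I) * (v : ℝ))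
        (by rw [hre]; positivity) (by rw [him]; have := mul_pos hs' hvpos; linarith)
      have h4 := (sq_lt_one_iff₀ (norm_nonneg _)).2 h
      rw [← hF, hval, div_lt_one (mul_pos hp1 hp2)] at h4
      exact h4

/-- Rotation of the zeros towards the negative axis preserves, up to the quarter turn, the
Cauchy-Schwarz inequality `|P(zw)|^2 ≤ P(|z|^2) P(|w|^2)` (`z, w` nonzero complex numbers), which
nonnegativity of the coefficients implies; for `t > 0` it becomes strict except for `w = conj z`.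
-/
theorem result {n : ℕ} (r a : Fin n → ℝ) (hr : ∀ k, 0 < r k)
    (ha : ∀ k, 0 < a k ∧ a k < Real.pi) :
    ((∀ j, 0 ≤ (rot r a 0).coeff j) → ∀ z w : ℂ,
      ‖aeval (z * w) (rot r a 0)‖ ^ 2 ≤
        (rot r a 0).eval (‖z‖ ^ 2) * (rot r a 0).eval (‖w‖ ^ 2)) ∧
    ((∀ z w : ℂ, z ≠ 0 → w ≠ 0 → ‖aeval (z * w) (rot r a 0)‖ ^ 2 ≤
        (rot r a 0).eval (‖z‖ ^ 2) * (rot r a 0).eval (‖w‖ ^ 2)) →
      ∀ t : ℝ, 0 ≤ t → t ≤ Real.pi / 2 → ∀ z w : ℂ, z ≠ 0 → w ≠ 0 →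
        ‖aeval (z * w) (rot r a t)‖ ^ 2 ≤
            (rot r a t).eval (‖z‖ ^ 2) * (rot r a t).eval (‖w‖ ^ 2) ∧
          (0 < t → 0 < n → w ≠ (starRingEnd ℂ) z →
            ‖aeval (z * w) (rot r a t)‖ ^ 2 <
              (rot r a t).eval (‖z‖ ^ 2) * (rot r a t).eval (‖w‖ ^ 2))) :=
  ⟨fun h z w => cs_of_nonneg _ h z w,
    fun h _ ht ht' z w hz hw => cs_t r a hr ha h ht ht' z w hz hw⟩

end Pool.Agent.Results.MP_fe2d2a_an.CauchySchwarzPreserved
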