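import Pool.Agent.H565R2.EV.Defs
import Pool.Agent.H565R2.EV.INT
import Pool.Agent.H565R2.EV.POS
import Pool.Agent.H565R2.EV.ALG1
import Pool.Agent.H565R2.EV.ALG2
import Pool.Agent.H565R2.EV.MM1
import Pool.Agent.H565R2.EV.MM2
import Pool.Agent.H565R2.EV.MM3
import Pool.Agent.H565R2.EV.SYM0
import Pool.Agent.H565R2.EV.SYMP
import Pool.Agent.H565R2.EV.SYM1
import Pool.Agent.H565R2.EV.SYM2
import Pool.Agent.H565R2.EV.WPOS
import Pool.Agent.H565R2.EV.EPOS
import Pool.Agent.H565R2.EV.DER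
import Pool.Agent.H565R2.EV.CALC
import Pool.Agent.H565R2.EV.ENDS

set_option autoImplicit false

open Polynomial Set MeasureTheory Pool.Agent.H565R2.EV

namespace Pool.Agent.Results.MP_fe2d2a_an.EvenCase

/-- `P_t`: product over the multiset `M` of pairs `(r, a)` of
`X^2 - 2 r cos(t + a) X + r^2`; its zeros are the points `r e^(± i (t + a))`. -/
noncomputable def P (M : Multiset (ℝ × ℝ)) (t : ℝ) : ℝ[X] :=
  (M.map fun p => X ^ 2 - C (2 * p.1 * Real.cos (t + p.2)) * X + C (p.1 ^ 2)).prod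

theorem W_pos' {n : ℕ} (σ : Fin n → ℂ) (hσ : ∀ k, 0 < (σ k).re) (q : ℕ → ℝ)
    (hq : ∀ i, (QQ σ).coeff i = (q i : ℂ)) (hq0 : ∀ i, 0 ≤ q i) (m : ℕ) (hm : m < n) :
    ∃ ρ : ℝ, 0 < ρ ∧ (WW σ).coeff m = (ρ : ℂ) :=
  W_pos_of int_sigma pos_int (fun σ q hq s hne m => alg1 σ q hq s hne m) σ hσ q hq hq0 m hm

theorem E_pos' {n : ℕ} (σ : Fin n → ℂ) (hσ : ∀ k, 0 < (σ k).re) (q : ℕ → ℝ)
    (hq : ∀ i, (QQ σ).coeff i = (q i : ℂ)) (hq0 : ∀ i, 0 ≤ q i) (m : ℕ) (hm : m + 2 ≤ n) :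
    ∃ ρ : ℝ, 0 < ρ ∧ (EE σ).coeff m = (ρ : ℂ) :=
  E_pos_of int_sigma pos_int (fun σ q w hq hw s hne m => alg2_of mm_identity σ q w hq hw s hne m)
    mm_nonneg mm_pos (fun σ hσ q hq hq0 m hm => W_pos' σ hσ q hq hq0 m hm) σ hσ q hq hq0 m hm

/-- all coefficients nonnegative and nondecreasing on `S`. -/
def Good (F : ℝ → ℝ[X]) (S : Set ℝ) : Prop :=
  ∀ j, (∀ t ∈ S, 0 ≤ (F t).coeff j) ∧ MonotoneOn (fun t => (F t).coeff j) S

theorem Good.subset {F : ℝ → ℝ[X]} {S T : Set ℝ} (h : Good F S) (hT : T ⊆ S) : Good F T :=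
  fun j => ⟨fun t ht => (h j).1 t (hT ht), (h j).2.mono hT⟩

theorem Good.mul {F G : ℝ → ℝ[X]} {S : Set ℝ} (hF : Good F S) (hG : Good G S) :
    Good (fun t => F t * G t) S := by
  intro j
  constructor
  · intro t ht
    simp only [coeff_mul]
    exact Finset.sum_nonneg fun p _ => mul_nonneg ((hF _).1 t ht) ((hG _).1 t ht)
  · intro t ht u hu htu
    simp only [coeff_mul]
    exact Finset.sum_le_sum fun p _ =>
      mul_le_mul ((hF _).2 ht hu htu) ((hG _).2 ht hu htu) ((hG _).1 t ht) ((hF _).1 u hu)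

theorem Good.one (S : Set ℝ) : Good (fun _ => (1 : ℝ[X])) S := by
  intro j
  refine ⟨fun t _ => ?_, monotoneOn_const⟩
  rw [coeff_one]
  split_ifs <;> norm_num

/-- monotone and nonnegative at `0`. -/
theorem Good.of_mono {F : ℝ → ℝ[X]} {δ : ℝ} (hδ : 0 < δ) (h0 : ∀ j, 0 ≤ (F 0).coeff j)
    (h : ∀ j, MonotoneOn (fun t => (F t).coeff j) (Icc 0 δ)) : Good F (Icc 0 δ) := fun j =>
  ⟨fun t ht => (h0 j).trans (h j ⟨le_rfl, hδ.le⟩ ht ht.1), h j⟩

theorem neg_cos_mono {a δ : ℝ} (ha : 0 < a) (hδ : δ ≤ Real.pi - a) {t u : ℝ}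
    (ht : t ∈ Icc 0 δ) (hu : u ∈ Icc 0 δ) (htu : t ≤ u) :
    Real.cos (u + a) ≤ Real.cos (t + a) :=
  Real.cos_le_cos_of_nonneg_of_le_pi (by linarith [ht.1]) (by linarith [hu.2]) (by linarith)

/-- quadratic blocks -/
theorem good_quad {r a : ℝ} (hr : 0 < r) (ha : 0 < a) (ha' : a < Real.pi)
    (h0 : ∀ j, 0 ≤ (X ^ 2 - C (2 * r * Real.cos (0 + a)) * X + C (r ^ 2) : ℝ[X]).coeff j) :
    ∃ δ > (0 : ℝ), Good (fun t => X ^ 2 - C (2 * r * Real.cos (t + a)) * X + C (r ^ 2))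
      (Icc 0 δ) := by
  refine ⟨Real.pi - a, by linarith, Good.of_mono (by linarith) h0 fun j t ht u hu htu => ?_⟩
  have hc := neg_cos_mono ha le_rfl ht hu htu
  have hco : ∀ t : ℝ, (X ^ 2 - C (2 * r * Real.cos (t + a)) * X + C (r ^ 2) : ℝ[X]).coeff j =
      (if j = 2 then 1 else 0) - 2 * r * Real.cos (t + a) * (if 1 = j then 1 else 0) +
        (if j = 0 then r ^ 2 else 0) := by
    intro t
    rw [coeff_add, coeff_sub, coeff_X_pow, coeff_C_mul, coeff_X, coeff_C]
  simp only [hco]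
  have h2 : 2 * r * Real.cos (u + a) ≤ 2 * r * Real.cos (t + a) := by nlinarith
  split_ifs <;> linarith

theorem quart_expand (r a s b t : ℝ) :
    (X ^ 2 - C (2 * r * Real.cos (t + a)) * X + C (r ^ 2) : ℝ[X]) *
      (X ^ 2 - C (2 * s * Real.cos (t + b)) * X + C (s ^ 2)) =
    X ^ 4 + C (-2 * (r * Real.cos (t + a) + s * Real.cos (t + b))) * X ^ 3 +
      C (r ^ 2 + s ^ 2 + 2 * r * s * (Real.cos (a - b) + Real.cos (a + b + 2 * t))) * X ^ 2 +
      C (-2 * r * s * (s * Real.cos (t + a) + r * Real.cos (t + b))) * X +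
      C (r ^ 2 * s ^ 2) := by
  have h : Real.cos (a - b) + Real.cos (a + b + 2 * t) =
      2 * (Real.cos (t + a) * Real.cos (t + b)) := by
    rw [show a - b = (t + a) - (t + b) by ring, show a + b + 2 * t = (t + a) + (t + b) by ring,
      Real.cos_sub, Real.cos_add (t + a) (t + b)]
    ring
  rw [h]
  simp only [C_add, C_mul, C_neg, C_pow]
  ring

theorem quart_coeff (r a s b t : ℝ) (j : ℕ) :
    ((X ^ 2 - C (2 * r * Real.cos (t + a)) * X + C (r ^ 2) : ℝ[X]) *
      (X ^ 2 - C (2 * s * Real.cos (t + b)) * X + C (s ^ 2))).coeff j =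
    (if j = 4 then 1 else 0) +
      (-2 * (r * Real.cos (t + a) + s * Real.cos (t + b))) * (if j = 3 then 1 else 0) +
      (r ^ 2 + s ^ 2 + 2 * r * s * (Real.cos (a - b) + Real.cos (a + b + 2 * t))) *
        (if j = 2 then 1 else 0) +
      (-2 * r * s * (s * Real.cos (t + a) + r * Real.cos (t + b))) * (if 1 = j then 1 else 0) +
      (if j = 0 then r ^ 2 * s ^ 2 else 0) := by
  rw [quart_expand]
  simp only [coeff_add, coeff_C_mul, coeff_X_pow, coeff_X, coeff_C]

/-- quartic blocks -/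
theorem good_quart {r a s b : ℝ} (hr : 0 < r) (ha : 0 < a) (ha' : a < Real.pi)
    (hs : 0 < s) (hb : 0 < b) (hb' : b < Real.pi)
    (h0 : ∀ j, 0 ≤ ((X ^ 2 - C (2 * r * Real.cos (0 + a)) * X + C (r ^ 2) : ℝ[X]) *
      (X ^ 2 - C (2 * s * Real.cos (0 + b)) * X + C (s ^ 2))).coeff j) :
    ∃ δ > (0 : ℝ), Good (fun t => (X ^ 2 - C (2 * r * Real.cos (t + a)) * X + C (r ^ 2)) *
      (X ^ 2 - C (2 * s * Real.cos (t + b)) * X + C (s ^ 2))) (Icc 0 δ) := by
  have h3 := h0 3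
  have h1 := h0 1
  rw [quart_coeff] at h3 h1
  norm_num at h3 h1
  have hsum : Real.cos a + Real.cos b ≤ 0 := by
    have h1' : s * Real.cos a + r * Real.cos b ≤ 0 := by
      by_contra hcon
      push Not at hcon
      have : 0 < 2 * r * s * (s * Real.cos a + r * Real.cos b) := by positivity
      linarith
    by_contra hcon
    push Not at hcon
    have : 0 < (r + s) * (Real.cos a + Real.cos b) := by positivity
    nlinarith
  have hab : Real.pi ≤ a + b := by
    by_contra hcon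
    push Not at hcon
    have h4 : Real.cos (Real.pi - a) < Real.cos b :=
      Real.cos_lt_cos_of_nonneg_of_le_pi hb.le (by linarith) (by linarith)
    rw [Real.cos_pi_sub] at h4
    linarith
  have hδ : 0 < min (Real.pi - a) (Real.pi - b) := lt_min (by linarith) (by linarith)
  refine ⟨min (Real.pi - a) (Real.pi - b), hδ, Good.of_mono hδ h0 fun j t ht u hu htu => ?_⟩
  have hca := neg_cos_mono ha (min_le_left _ _) ht hu htu
  have hcb := neg_cos_mono hb (min_le_right _ _) ht hu htu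
  have hcc : Real.cos (a + b + 2 * t) ≤ Real.cos (a + b + 2 * u) := by
    have hu1 : u ≤ Real.pi - a := hu.2.trans (min_le_left _ _)
    have hu2 : u ≤ Real.pi - b := hu.2.trans (min_le_right _ _)
    have ht0 := ht.1
    have e1 : ∀ x : ℝ, Real.cos x = Real.cos (2 * Real.pi - x) := fun x =>
      (Real.cos_two_pi_sub x).symm
    rw [e1 (a + b + 2 * t), e1 (a + b + 2 * u)]
    exact Real.cos_le_cos_of_nonneg_of_le_pi (by linarith) (by linarith) (by linarith)
  simp only [quart_coeff]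
  have k3 : -2 * (r * Real.cos (t + a) + s * Real.cos (t + b)) ≤
      -2 * (r * Real.cos (u + a) + s * Real.cos (u + b)) := by
    have := mul_le_mul_of_nonneg_left hca hr.le
    have := mul_le_mul_of_nonneg_left hcb hs.le
    linarith
  have k1 : -2 * r * s * (s * Real.cos (t + a) + r * Real.cos (t + b)) ≤
      -2 * r * s * (s * Real.cos (u + a) + r * Real.cos (u + b)) := by
    have h5 := mul_le_mul_of_nonneg_left hca hs.le
    have h6 := mul_le_mul_of_nonneg_left hcb hr.le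
    have h7 : 0 < 2 * r * s := by positivity
    have h8 : s * Real.cos (u + a) + r * Real.cos (u + b) ≤
      s * Real.cos (t + a) + r * Real.cos (t + b) := by linarith
    have := mul_le_mul_of_nonneg_left h8 h7.le
    linarith
  have k2 : r ^ 2 + s ^ 2 + 2 * r * s * (Real.cos (a - b) + Real.cos (a + b + 2 * t)) ≤
      r ^ 2 + s ^ 2 + 2 * r * s * (Real.cos (a - b) + Real.cos (a + b + 2 * u)) := by
    have h7 : 0 < 2 * r * s := by positivity
    have := mul_le_mul_of_nonneg_left hcc h7.le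
    linarith
  split_ifs <;> linarith

theorem sg_re {n : ℕ} (r a : Fin n → ℝ) (hr : ∀ k, 0 < r k)
    (ha : ∀ k, 0 < a k ∧ a k < Real.pi) (k : Fin n) : 0 < (sg r a k).re := by
  have h : (sg r a k).re = r k * Real.sin (a k) := by
    unfold sg wz
    rw [neg_mul, Complex.neg_re, Complex.I_mul_re, neg_neg, Complex.im_ofReal_mul,
      Complex.exp_ofReal_mul_I_im]
  rw [h]
  exact mul_pos (hr k) (Real.sin_pos_of_pos_of_lt_pi (ha k).1 (ha k).2)

theorem even_coeff {n : ℕ} (r a : Fin n → ℝ) (hr : ∀ k, 0 < r k)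
    (ha : ∀ k, 0 < a k ∧ a k < Real.pi) (hpos : ∀ j, 0 ≤ (rot0 r a).coeff j)
    (hodd : ∀ j, Odd j → (rot0 r a).coeff j = 0) (j : ℕ) :
    ∃ ε > (0 : ℝ), MonotoneOn (fun t => (rot0 r (fun k => t + a k)).coeff j) (Icc 0 ε) := by
  have hs := sym0 r a hr ha hodd
  have hq := symP r a hs
  have hσ := sg_re r a hr ha
  have h0 : (fun k => (0 : ℝ) + a k) = a := by funext k; simp
  have hcalc := calc_mono (fun t => (rot0 r (fun k => t + a k)).coeff j)
    (fun t => (D1 r (fun k => t + a k)).coeff j) (fun t => (D2 r (fun k => t + a k)).coeff j)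
    (fun t => der1 r a t j) (fun t => der2 r a t j)
  simp only [h0] at hcalc
  by_cases hj0 : j = 0
  · refine ⟨1, one_pos, fun t _ u _ _ => le_of_eq ?_⟩
    simp only [hj0]
    rw [(ends r (fun k => t + a k)).1, (ends r (fun k => u + a k)).1]
  by_cases hj1 : 2 * n < j
  · refine ⟨1, one_pos, fun t _ u _ _ => le_of_eq ?_⟩
    simp only
    rw [(ends r (fun k => t + a k)).2.2 j hj1, (ends r (fun k => u + a k)).2.2 j hj1]
  by_cases hj2 : j = 2 * n
  · refine ⟨1, one_pos, fun t _ u _ _ => le_of_eq ?_⟩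
    simp only [hj2]
    rw [(ends r (fun k => t + a k)).2.1, (ends r (fun k => u + a k)).2.1]
  rcases Nat.even_or_odd' j with ⟨m, hm | hm⟩
  · -- even, `j = 2 m`
    obtain ⟨p, rfl⟩ : ∃ p, m = p + 1 := ⟨m - 1, by omega⟩
    obtain ⟨ρ, hρ, hE⟩ := E_pos' (sg r a) hσ (fun i => (rot0 r a).coeff (2 * i)) hq
      (fun i => hpos _) p (by omega)
    have h1 : (D1 r a).coeff j = 0 := by rw [hm]; exact (sym1 r a hs).2 (p + 1)
    have h2 := sym2 r a hs p
    rw [hE] at h2
    have h3 : (D2 r a).coeff j = 4 * ρ := by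
      rw [hm, show 2 * (p + 1) = 2 * p + 2 by ring]
      exact_mod_cast h2
    exact hcalc (Or.inr ⟨h1, by rw [h3]; positivity⟩)
  · obtain ⟨ρ, hρ, hW⟩ := W_pos' (sg r a) hσ (fun i => (rot0 r a).coeff (2 * i)) hq
      (fun i => hpos _) m (by omega)
    have h2 := (sym1 r a hs).1 m
    rw [hW] at h2
    have h3 : (D1 r a).coeff j = 2 * ρ := by
      rw [hm]
      exact_mod_cast h2
    exact hcalc (Or.inl (by rw [h3]; positivity))

theorem even_core {n : ℕ} (r a : Fin n → ℝ) (hr : ∀ k, 0 < r k)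
    (ha : ∀ k, 0 < a k ∧ a k < Real.pi) (hpos : ∀ j, 0 ≤ (rot0 r a).coeff j)
    (hodd : ∀ j, Odd j → (rot0 r a).coeff j = 0) :
    ∃ ε > (0 : ℝ), Good (fun t => rot0 r (fun k => t + a k)) (Icc 0 ε) := by
  choose e he hmono using even_coeff r a hr ha hpos hodd
  obtain ⟨i, hi, hmin⟩ := Finset.exists_min_image (Finset.range (2 * n + 1)) e
    ⟨0, by simp⟩
  refine ⟨e i, he i, ?_⟩
  have key : ∀ j, MonotoneOn (fun t => (rot0 r (fun k => t + a k)).coeff j) (Icc 0 (e i)) := by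
    intro j
    by_cases hj : 2 * n < j
    · intro t _ u _ _
      simp only
      rw [(ends r (fun k => t + a k)).2.2 j hj, (ends r (fun k => u + a k)).2.2 j hj]
    · exact (hmono j).mono (Icc_subset_Icc le_rfl (hmin j (by simp; omega)))
  intro j
  refine ⟨fun t ht => ?_, key j⟩
  have h := key j ⟨le_rfl, (he i).le⟩ ht ht.1
  simp only [zero_add] at h
  exact (hpos j).trans h

theorem P_eq_rot0 (M : Multiset (ℝ × ℝ)) (t : ℝ) :
    P M t = rot0 (fun k : Fin M.toList.length => (M.toList.get k).1)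
      (fun k => t + (M.toList.get k).2) := by
  unfold P rot0
  have h : M = ((M.toList : List (ℝ × ℝ)) : Multiset (ℝ × ℝ)) := (Multiset.coe_toList M).symm
  conv_lhs => rw [h]
  rw [Multiset.map_coe, Multiset.prod_coe, ← List.prod_ofFn]
  congr 1
  conv_lhs => rw [← List.ofFn_get M.toList]
  rw [List.map_ofFn]
  rfl

theorem even_P (E : Multiset (ℝ × ℝ)) (hE : ∀ p ∈ E, 0 < p.1 ∧ 0 < p.2 ∧ p.2 < Real.pi)
    (hpos : ∀ j, 0 ≤ (P E 0).coeff j) (hodd : ∀ j, Odd j → (P E 0).coeff j = 0) :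
    ∃ ε > (0 : ℝ), Good (P E) (Icc 0 ε) := by
  have hmem : ∀ k : Fin E.toList.length, E.toList.get k ∈ E := fun k =>
    Multiset.mem_toList.1 (List.get_mem _ _)
  have h0 : P E 0 = rot0 (fun k : Fin E.toList.length => (E.toList.get k).1)
      (fun k => (E.toList.get k).2) := by
    rw [P_eq_rot0]
    congr 1
    funext k
    exact zero_add _
  rw [h0] at hpos hodd
  obtain ⟨ε, hε, h⟩ := even_core _ _ (fun k => (hE _ (hmem k)).1) (fun k => (hE _ (hmem k)).2)
    hpos hodd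
  refine ⟨ε, hε, ?_⟩
  have he : P E = fun t => rot0 (fun k : Fin E.toList.length => (E.toList.get k).1)
      (fun k => t + (E.toList.get k).2) := by
    funext t
    exact P_eq_rot0 E t
  rw [he]
  exact h

theorem small_P (b : Multiset (ℝ × ℝ)) (hb : ∀ p ∈ b, 0 < p.1 ∧ 0 < p.2 ∧ p.2 < Real.pi)
    (hc : Multiset.card b ≤ 2) (hpos : ∀ j, 0 ≤ (P b 0).coeff j) :
    ∃ ε > (0 : ℝ), Good (P b) (Icc 0 ε) := by
  have h3 : Multiset.card b = 0 ∨ Multiset.card b = 1 ∨ Multiset.card b = 2 := by omega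
  rcases h3 with h | h | h
  · rw [Multiset.card_eq_zero] at h
    subst h
    refine ⟨1, one_pos, ?_⟩
    have : P (0 : Multiset (ℝ × ℝ)) = fun _ => (1 : ℝ[X]) := by
      funext t
      simp [P]
    rw [this]
    exact Good.one _
  · obtain ⟨p, rfl⟩ := Multiset.card_eq_one.1 h
    obtain ⟨h1, h2, h4⟩ := hb p (Multiset.mem_singleton_self p)
    have e : P {p} = fun t => X ^ 2 - C (2 * p.1 * Real.cos (t + p.2)) * X + C (p.1 ^ 2) := by
      funext t
      simp [P]
    rw [e] at hpos ⊢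
    exact good_quad h1 h2 h4 hpos
  · obtain ⟨p, q, rfl⟩ := Multiset.card_eq_two.1 h
    obtain ⟨h1, h2, h4⟩ := hb p (by simp)
    obtain ⟨h1', h2', h4'⟩ := hb q (by simp)
    have e : P {p, q} = fun t => (X ^ 2 - C (2 * p.1 * Real.cos (t + p.2)) * X + C (p.1 ^ 2)) *
        (X ^ 2 - C (2 * q.1 * Real.cos (t + q.2)) * X + C (q.1 ^ 2)) := by
      funext t
      unfold P
      rw [Multiset.insert_eq_cons, Multiset.map_cons, Multiset.map_singleton,
        Multiset.prod_cons, Multiset.prod_singleton]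
    rw [e] at hpos ⊢
    exact good_quart h1 h2 h4 h1' h2' h4' hpos

theorem P_add (M N : Multiset (ℝ × ℝ)) (t : ℝ) : P (M + N) t = P M t * P N t := by
  unfold P
  rw [Multiset.map_add, Multiset.prod_add]

theorem blocks_P (B : Multiset (Multiset (ℝ × ℝ)))
    (hB : ∀ b ∈ B, Multiset.card b ≤ 2 ∧ (∀ p ∈ b, 0 < p.1 ∧ 0 < p.2 ∧ p.2 < Real.pi) ∧
      ∀ j, 0 ≤ (P b 0).coeff j) :
    ∃ ε > (0 : ℝ), Good (P B.sum) (Icc 0 ε) := by
  induction B using Multiset.induction_on with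
  | empty =>
    rw [Multiset.sum_zero]
    exact small_P 0 (by simp) (by simp) (by
      intro j
      have : P (0 : Multiset (ℝ × ℝ)) 0 = 1 := by simp [P]
      rw [this, coeff_one]
      split_ifs <;> norm_num)
  | cons b B ih =>
    obtain ⟨ε, hε, h1⟩ := ih fun c hc => hB c (Multiset.mem_cons_of_mem hc)
    obtain ⟨hb1, hb2, hb3⟩ := hB b (Multiset.mem_cons_self b B)
    obtain ⟨δ, hδ, h2⟩ := small_P b hb2 hb1 hb3
    refine ⟨min ε δ, lt_min hε hδ, ?_⟩
    have he : P (Multiset.sum (b ::ₘ B)) = fun t => P b t * P B.sum t := by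
      funext t
      rw [Multiset.sum_cons, P_add]
    rw [he]
    exact Good.mul (h2.subset (Icc_subset_Icc le_rfl (min_le_right _ _)))
      (h1.subset (Icc_subset_Icc le_rfl (min_le_left _ _)))

/-- **Evans' conjecture for even polynomials** (and products of an even polynomial with
polynomials of degree at most four).  `E` is a multiset of pairs `(r, a)`, `r > 0`,
`0 < a < π`, such that `P_0 = P E 0` is even with nonnegative coefficients; `B` is a multiset of
multisets with at most two such pairs, each with nonnegative coefficients.  Then all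
coefficients of the rotated polynomial `P (E + B.sum) t` are nondecreasing on some `[0, ε]`. -/
theorem result (E : Multiset (ℝ × ℝ)) (B : Multiset (Multiset (ℝ × ℝ)))
    (hE : ∀ p ∈ E, 0 < p.1 ∧ 0 < p.2 ∧ p.2 < Real.pi)
    (hpos : ∀ j, 0 ≤ (P E 0).coeff j) (hodd : ∀ j, Odd j → (P E 0).coeff j = 0)
    (hB : ∀ b ∈ B, Multiset.card b ≤ 2 ∧ (∀ p ∈ b, 0 < p.1 ∧ 0 < p.2 ∧ p.2 < Real.pi) ∧
      ∀ j, 0 ≤ (P b 0).coeff j) :
    ∃ ε > (0 : ℝ), ∀ j, MonotoneOn (fun t => (P (E + B.sum) t).coeff j) (Icc 0 ε) := by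
  obtain ⟨ε, hε, h1⟩ := even_P E hE hpos hodd
  obtain ⟨δ, hδ, h2⟩ := blocks_P B hB
  refine ⟨min ε δ, lt_min hε hδ, fun j => ?_⟩
  have he : P (E + B.sum) = fun t => P E t * P B.sum t := by
    funext t
    rw [P_add]
  rw [he]
  exact (Good.mul (h1.subset (Icc_subset_Icc le_rfl (min_le_left _ _)))
    (h2.subset (Icc_subset_Icc le_rfl (min_le_right _ _))) j).2

end Pool.Agent.Results.MP_fe2d2a_an.EvenCase
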